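import Pool.Agent.H59.LIN.Targets

/-!
# MP_559314_gt, board lin_modules: row DUA (the dual combinations)
-/

set_option autoImplicit false

open Finset Polynomial
open Pool.Agent.H59.LIN

namespace Pool.Agent.H63.LIN

theorem rep_fun (μ : Multiset (ℕ × ℕ)) :
    ∃ (r : ℕ) (f : Fin r → ℕ × ℕ), (univ : Finset (Fin r)).val.map f = μ := by
  refine ⟨μ.toList.length, μ.toList.get, ?_⟩
  rw [Fin.univ_val_map, List.ofFn_get, Multiset.coe_toList]

theorem rep_card {μ : Multiset (ℕ × ℕ)} {r : ℕ} {f : Fin r → ℕ × ℕ}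
    (h : (univ : Finset (Fin r)).val.map f = μ) : Multiset.card μ = r := by
  rw [← h, Multiset.card_map, Finset.card_val, Finset.card_univ, Fintype.card_fin]

theorem rep_wt {μ : Multiset (ℕ × ℕ)} {r : ℕ} {f : Fin r → ℕ × ℕ}
    (h : (univ : Finset (Fin r)).val.map f = μ) : wt μ = ∑ i, mb (f i) := by
  rw [wt, ← h, Multiset.map_map]; rfl

theorem rep_fst {μ : Multiset (ℕ × ℕ)} {r : ℕ} {f : Fin r → ℕ × ℕ}
    (h : (univ : Finset (Fin r)).val.map f = μ) : (μ.map Prod.fst).sum = ∑ i, (f i).1 := by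
  rw [← h, Multiset.map_map]; rfl

/-- the normalisation -/
noncomputable def kn (ν : Multiset (ℕ × ℕ)) : ℚ :=
  ∏ b ∈ ν.toFinset, ((ν.count b).factorial : ℚ)⁻¹

theorem rep_Phi {d : ℕ} (D : CD d) {ν : Multiset (ℕ × ℕ)} {r : ℕ} {g : Fin r → ℕ × ℕ}
    (h : (univ : Finset (Fin r)).val.map g = ν) :
    Phi D ν = kn ν * (∏ p, phi D (g p)) univ := by
  rw [Phi, kn]
  congr 2
  rw [← h, Multiset.map_map]; rfl

theorem rep_sum {d : ℕ} (x : CD d → ℤ) {ν : Multiset (ℕ × ℕ)} {r : ℕ} {g : Fin r → ℕ × ℕ}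
    (h : (univ : Finset (Fin r)).val.map g = ν) :
    ∑ D, (x D : ℚ) * Phi D ν = kn ν * ∑ D, x D • (∏ p, phi D (g p)) univ := by
  rw [Finset.mul_sum]
  refine Finset.sum_congr rfl fun D _ => ?_
  rw [rep_Phi D h, zsmul_eq_mul]
  ring

theorem fst_le (ν : Multiset (ℕ × ℕ)) : (ν.map Prod.fst).sum ≤ wt ν := by
  rw [wt]
  refine Multiset.sum_map_le_sum_map _ _ fun b _ => ?_
  rw [mb]; omega

theorem pf_DUA (hUPR : Pool.Agent.H59.LIN.T_UPR) (hCNT : Pool.Agent.H59.LIN.T_CNT)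
    (hTRI : Pool.Agent.H59.LIN.T_TRI) (hFNI : Pool.Agent.H59.LIN.T_FNI)
    (hINP : Pool.Agent.H59.LIN.T_INP) : Pool.Agent.H59.LIN.T_DUA := by
  classical
  intro d μ₀ hμ₀
  obtain ⟨pv, hpa, hpb, hpc, hU⟩ := hUPR
  have hfin : Fintype {ν : Multiset (ℕ × ℕ) // wt ν = d} := (hFNI d).fintype
  -- the combinations
  have hx : ∀ μ : {ν : Multiset (ℕ × ℕ) // wt ν = d}, ∃ x : CD d → ℤ,
      (∀ ν : Multiset (ℕ × ℕ), Multiset.card μ.1 < Multiset.card ν →
        ∑ D, (x D : ℚ) * Phi D ν = 0) ∧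
      (∀ ν : Multiset (ℕ × ℕ), Multiset.card ν = Multiset.card μ.1 →
        (ν.map Prod.fst).sum ≤ (μ.1.map Prod.fst).sum → ν ≠ μ.1 →
        ∑ D, (x D : ℚ) * Phi D ν = 0) ∧
      ∑ D, (x D : ℚ) * Phi D μ.1 = (-1) ^ (Multiset.card μ.1) := by
    rintro ⟨μ, hμ⟩
    obtain ⟨r, f, hf⟩ := rep_fun μ
    have hcard := rep_card hf
    obtain ⟨x, hx⟩ := hU r f d (by rw [← rep_wt hf]; exact hμ)
    refine ⟨x, ?_, ?_, ?_⟩
    · intro ν hν
      obtain ⟨r', g, hg⟩ := rep_fun ν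
      rw [rep_sum x hg, (hx r' g).1 (by rw [← hcard, ← rep_card hg]; exact hν), mul_zero]
    · intro ν hν hs hne
      obtain ⟨r', g, hg⟩ := rep_fun ν
      have hr : r' = r := by rw [← hcard, ← rep_card hg]; exact hν
      subst hr
      rw [rep_sum x hg, (hx r' g).2 rfl]
      have h1 := (hCNT pv hpa hpb hpc r' g f).1 (by
        rw [← rep_fst hg, ← rep_fst hf]; exact hs) (by rw [hg, hf]; exact hne)
      have h2 : ∑ σ : Equiv.Perm (Fin r'), ∏ p : Fin r', pv (g p) (f (σ (Fin.cast rfl p))) =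
          ∑ σ : Equiv.Perm (Fin r'), ∏ p : Fin r', pv (g p) (f (σ p)) := rfl
      rw [h2, h1, mul_zero]
    · rw [rep_sum x hf, (hx r f).2 rfl]
      have h1 := (hCNT pv hpa hpb hpc r f f).2 rfl
      have h2 : ∑ σ : Equiv.Perm (Fin r), ∏ p : Fin r, pv (f p) (f (σ (Fin.cast rfl p))) =
          ∑ σ : Equiv.Perm (Fin r), ∏ p : Fin r, pv (f p) (f (σ p)) := rfl
      rw [h2, h1, hf, kn]
      have h3 : (∏ b ∈ μ.toFinset, ((μ.count b).factorial : ℚ)⁻¹) *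
          ∏ b ∈ μ.toFinset, ((μ.count b).factorial : ℚ) = 1 := by
        rw [← Finset.prod_mul_distrib]
        refine Finset.prod_eq_one fun b _ => ?_
        exact inv_mul_cancel₀ (by exact_mod_cast Nat.factorial_ne_zero _)
      change _ = (-1 : ℚ) ^ (Multiset.card μ)
      rw [hcard]
      calc (∏ b ∈ μ.toFinset, ((μ.count b).factorial : ℚ)⁻¹) *
          ((-1) ^ r * ∏ b ∈ μ.toFinset, ((μ.count b).factorial : ℚ))
          = (-1) ^ r * ((∏ b ∈ μ.toFinset, ((μ.count b).factorial : ℚ)⁻¹) *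
            ∏ b ∈ μ.toFinset, ((μ.count b).factorial : ℚ)) := by ring
        _ = (-1) ^ r := by rw [h3, mul_one]
  choose x hx1 hx2 hx3 using hx
  have hz : ∀ (D : CD d) (ν : {ν : Multiset (ℕ × ℕ) // wt ν = d}), ∃ z : ℤ, Phi D ν.1 = z :=
    fun D ν => hINP d D ν.1 ν.2
  choose z hz using hz
  set M : {ν : Multiset (ℕ × ℕ) // wt ν = d} → {ν : Multiset (ℕ × ℕ) // wt ν = d} → ℤ :=
    fun ν μ => ∑ D, x μ D * z D ν with hM
  have hMq : ∀ ν μ, (M ν μ : ℚ) = ∑ D, (x μ D : ℚ) * Phi D ν.1 := by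
    intro ν μ
    rw [hM]
    push_cast
    exact Finset.sum_congr rfl fun D _ => by rw [hz]
  set ρ : {ν : Multiset (ℕ × ℕ) // wt ν = d} → ℕ := fun ν =>
    Multiset.card ν.1 * (d + 1) + (d - (ν.1.map Prod.fst).sum) with hρ
  have hfs : ∀ ν : {ν : Multiset (ℕ × ℕ) // wt ν = d}, (ν.1.map Prod.fst).sum ≤ d := by
    intro ν
    have h1 := fst_le ν.1
    rwa [ν.2] at h1
  obtain ⟨y, hy⟩ := hTRI _ ρ M (by
    intro μ
    have h1 := hMq μ μ
    rw [hx3] at h1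
    have h2 : M μ μ = (-1) ^ (Multiset.card μ.1) := by exact_mod_cast h1
    rw [h2]
    exact neg_one_pow_eq_or ℤ _) (by
    intro ν μ hne hMne
    have hne' : ν.1 ≠ μ.1 := fun h => hne (Subtype.ext h)
    have h1 : ∑ D, (x μ D : ℚ) * Phi D ν.1 ≠ 0 := by
      rw [← hMq]
      exact_mod_cast hMne
    have h2 : Multiset.card ν.1 ≤ Multiset.card μ.1 := by
      by_contra h
      exact h1 (hx1 μ ν.1 (not_le.1 h))
    change Multiset.card ν.1 * (d + 1) + (d - (ν.1.map Prod.fst).sum) <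
      Multiset.card μ.1 * (d + 1) + (d - (μ.1.map Prod.fst).sum)
    have h3 := hfs ν
    have h4 := hfs μ
    rcases h2.lt_or_eq with h5 | h5
    · have h6 : (Multiset.card ν.1 + 1) * (d + 1) ≤ Multiset.card μ.1 * (d + 1) :=
        Nat.mul_le_mul_right _ h5
      have h7 : (Multiset.card ν.1 + 1) * (d + 1) =
        Multiset.card ν.1 * (d + 1) + (d + 1) := by ring
      omega
    · have h6 : ¬ (ν.1.map Prod.fst).sum ≤ (μ.1.map Prod.fst).sum := fun h =>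
        h1 (hx2 μ ν.1 h5 h hne')
      rw [h5]
      omega) ⟨μ₀, hμ₀⟩
  refine ⟨fun D => ∑ k, y k * x k D, ?_⟩
  intro ν hν
  have h1 := hy ⟨ν, hν⟩
  have h2 : ((∑ k, M ⟨ν, hν⟩ k * y k : ℤ) : ℚ) =
      ∑ D, ((∑ k, y k * x k D : ℤ) : ℚ) * Phi D ν := by
    push_cast
    simp_rw [hMq, Finset.sum_mul]
    rw [Finset.sum_comm]
    refine Finset.sum_congr rfl fun D _ => Finset.sum_congr rfl fun k _ => ?_
    ring
  rw [← h2, h1]
  by_cases h3 : ν = μ₀
  · subst h3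
    simp
  · rw [if_neg h3, if_neg (fun h => h3 (congrArg Subtype.val h))]
    simp

end Pool.Agent.H63.LIN
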